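import Pool.Agent.MP_57dfd7_co.T7b

/-!
MP_57dfd7_co: the Cayley graph of the lamplighter group gives a negative answer to Q1.
-/

namespace Pool.Agent.Results.MP_57dfd7_co.Lamplighter

open Pool.Agent.MP_57dfd7_co

/-- The Cayley graph of the lamplighter group `Z_2 wr Z` for the two standard generators is
locally finite, quasi-transitive and of unbounded treewidth, and each of its subgraphs that is
quasi-transitive (with respect to its own automorphism group) and of unbounded treewidth contains
a subdivision of `K_{3,3}`; in particular no such subgraph is planar. -/
theorem result :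
    (∀ v, (lamplighter.neighborSet v).Finite) ∧ QuasiTransitive lamplighter ∧
    (∀ k, ¬ TreewidthLE lamplighter k) ∧
    ∀ H : lamplighter.Subgraph, QuasiTransitive H.coe → (∀ k, ¬ TreewidthLE H.coe k) →
      HasK33Subdivision H.coe := by
  refine ⟨fun v => ?_, T1a_qt, T1d_tw, fun H qt tw => lamplighter_subgraph H qt tw⟩
  exact Set.finite_of_encard_le_coe (k := 3) (by exact_mod_cast T1c_deg v)

end Pool.Agent.Results.MP_57dfd7_co.Lamplighter
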